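import Pool.Agent.Helper40.PR.Defs2
import Pool.Agent.Helper26.PR.TK6
import Pool.Agent.Helper54.PR.TK5
import Pool.Agent.Helper54.PR.TK10
import Pool.Agent.Helper43.PR.TK9
import Pool.Agent.Helper8.PR.CD1
import Pool.Agent.Helper27.PR.CD11A

/-!
# PR-CD11B: extension to all rank one operators and Wigner's theorem
-/

namespace PR

open ContinuousLinearMap

section cd11b

variable {Y : Type*} [NormedAddCommGroup Y] [NormedSpace ℂ Y] [CompleteSpace Y]
variable {σ : ℂ}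

/-- the test with a flag operator -/
theorem sr_bra_flag_smul (hσ : σ = 1 ∨ σ = -1) (T : Y →L[ℂ] Y) {u : Y} {k : Y →L[ℂ] ℂ}
    (hk : k u = 0) (c γ : ℂ) (hγ : σ = 1 → γ = 0) :
    sr (bra σ T (c • rk u k + γ • (1 : Y →L[ℂ] Y))) = ‖c‖ * ‖k (T u)‖ := by
  have h1 : c • rk u k = rk (c • u) k := by
    ext z; simp [smul_smul, mul_comm]
  have h2 : k (c • u) = 0 := by simp [hk]
  have h3 : sr (bra σ T (rk (c • u) k)) = ‖c‖ * ‖k (T u)‖ := by
    rw [sr_bra_flag hσ T h2]; simp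
  rcases hσ with h | h
  · rw [hγ h, zero_smul, add_zero, h1, h3]
  · subst h
    rw [h1, ← sr_bra_comm (Or.inr rfl), bra_add_scalar, sr_bra_comm (Or.inr rfl), h3]

/-- Flags in general position. -/
theorem exists_gen_flag {V W : Type*} [AddCommGroup V] [Module ℂ V] [AddCommGroup W] [Module ℂ W]
    (hV : Dim3 V) {B : V →ₗ[ℂ] W →ₗ[ℂ] ℂ} (hB : GoodPair B) {v v1 : V} {w w1 : W}
    (hv : v ≠ 0) (hv1 : v1 ≠ 0) (hw : w ≠ 0) (hw1 : w1 ≠ 0) :
    ∃ v' w', v' ≠ 0 ∧ w' ≠ 0 ∧ B v' w' = 0 ∧ B v w' ≠ 0 ∧ B v1 w' ≠ 0 ∧ B v' w ≠ 0 ∧ B v' w1 ≠ 0 := by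
  classical
  -- lines are proper
  have hline : ∀ x : V, Submodule.span ℂ {x} ≠ ⊤ := by
    intro x hx
    obtain ⟨e, he⟩ := hV
    have hfin : Module.finrank ℂ V ≤ 1 := by
      have := finrank_span_le_card (R := ℂ) ({x} : Set V)
      rw [hx, finrank_top] at this
      simpa using this
    have hfd : Module.Finite ℂ V := by
      have : Module.Finite ℂ (⊤ : Submodule ℂ V) := by
        rw [← hx]; infer_instance
      exact Module.Finite.equiv (Submodule.topEquiv (R := ℂ) (M := V))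
    have := he.fintype_card_le_finrank
    simp at this
    omega
  have hker : ∀ x : W, x ≠ 0 → LinearMap.ker (B.flip x) ≠ ⊤ := by
    intro x hx h
    have hli : LinearIndependent ℂ ![x] := by
      rw [linearIndependent_unique_iff]
      simpa using hx
    obtain ⟨y, hy⟩ := hB.right 1 ![x] hli ![1]
    have h0 := hy 0
    have : y ∈ LinearMap.ker (B.flip x) := by rw [h]; trivial
    rw [LinearMap.mem_ker, LinearMap.flip_apply] at this
    simp [this] at h0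
  have hcov := Subspace.biUnion_ne_univ_of_top_notMem (k := ℂ) (E := V)
    (s := {Submodule.span ℂ {v}, Submodule.span ℂ {v1}, LinearMap.ker (B.flip w),
      LinearMap.ker (B.flip w1)}) (by
      simp only [Finset.mem_insert, Finset.mem_singleton, not_or]
      exact ⟨(hline v).symm, (hline v1).symm, (hker w hw).symm, (hker w1 hw1).symm⟩)
  obtain ⟨v', hv'⟩ := (Set.ne_univ_iff_exists_notMem _).1 hcov
  simp only [Finset.mem_insert, Finset.mem_singleton, Set.mem_iUnion, not_exists,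
    exists_prop, not_and, SetLike.mem_coe] at hv'
  have h1 := hv' _ (Or.inl rfl)
  have h2 := hv' _ (Or.inr (Or.inl rfl))
  have h3 := hv' _ (Or.inr (Or.inr (Or.inl rfl)))
  have h4 := hv' _ (Or.inr (Or.inr (Or.inr rfl)))
  rw [LinearMap.mem_ker, LinearMap.flip_apply] at h3 h4
  have key : ∀ x : V, x ≠ 0 → v' ∉ Submodule.span ℂ {x} → ∃ y, B v' y = 0 ∧ B x y = 1 := by
    intro x hx hx'
    have hli : LinearIndependent ℂ ![v', x] := by
      rw [LinearIndependent.pair_symm_iff, LinearIndependent.pair_iff' hx]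
      intro a ha
      exact hx' (Submodule.mem_span_singleton.2 ⟨a, ha⟩)
    obtain ⟨y, hy⟩ := hB.left 2 ![v', x] hli ![0, 1]
    exact ⟨y, by simpa using hy 0, by simpa using hy 1⟩
  obtain ⟨a, ha, ha'⟩ := key v hv h1
  obtain ⟨b, hb, hb'⟩ := key v1 hv1 h2
  have hv'0 : v' ≠ 0 := by
    rintro rfl
    exact h1 (Submodule.zero_mem _)
  have fin : ∀ w' : W, B v' w' = 0 → B v w' ≠ 0 → B v1 w' ≠ 0 →
      ∃ v' w', v' ≠ 0 ∧ w' ≠ 0 ∧ B v' w' = 0 ∧ B v w' ≠ 0 ∧ B v1 w' ≠ 0 ∧ B v' w ≠ 0 ∧ B v' w1 ≠ 0 := by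
    intro w' e1 e2 e3
    refine ⟨v', w', hv'0, ?_, e1, e2, e3, h3, h4⟩
    rintro rfl
    simp at e2
  by_cases ca : B v1 a = 0
  · by_cases cb : B v b = 0
    · refine fin (a + b) ?_ ?_ ?_ <;> simp [ha, hb, ha', hb', ca, cb]
    · exact fin b hb cb (by rw [hb']; exact one_ne_zero)
  · exact fin a ha (by rw [ha']; exact one_ne_zero) ca

/-- the three term test -/
theorem sr_test3 (hσ : σ = 1 ∨ σ = -1) {T S : Y →L[ℂ] Y} {x u : Y} {f k : Y →L[ℂ] ℂ}
    {c γ c' γ' : ℂ} (hT : T = c • rk x f + γ • (1 : Y →L[ℂ] Y))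
    (hS : S = c' • rk u k + γ' • (1 : Y →L[ℂ] Y)) (hk : k u = 0) (hγ : σ = 1 → γ' = 0) :
    sr (bra σ T S) = ‖c'‖ * (‖c‖ * (‖f u‖ * ‖k x‖)) := by
  rw [hS, sr_bra_flag_smul hσ T hk c' γ' hγ, hT]
  simp [hk]

/-- consequences of `LinOrConj` -/
theorem linOrConj_spec {V W : Type*} [AddCommGroup V] [Module ℂ V] [AddCommGroup W] [Module ℂ W]
    {A : V → W} (hA : LinOrConj A) :
    ∃ τ : ℂ → ℂ, (∀ c, ‖τ c‖ = ‖c‖) ∧ (∀ c, τ (τ c) = c) ∧ (∀ v w, A (v - w) = A v - A w) ∧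
      (∀ (c : ℂ) v, A (c • v) = τ c • A v) ∧ A 0 = 0 := by
  rcases hA with ⟨L, hL⟩ | ⟨L, hL⟩
  · exact ⟨id, fun _ => rfl, fun _ => rfl, fun v w => by simp [hL], fun c v => by simp [hL],
      by simp [hL]⟩
  · exact ⟨starRingEnd ℂ, fun c => by simp, fun c => by simp, fun v w => by simp [hL],
      fun c v => by simp [hL], by simp [hL]⟩

omit [CompleteSpace Y] in
theorem exists_functional_ne {f : Y} (hY : Dim3 Y) :
    ∃ k : Y →L[ℂ] ℂ, k ≠ 0 ∧ k f = 0 := by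
  by_cases hf : ∃ w, w ∉ Submodule.span ℂ (Set.range ![f])
  · obtain ⟨w, hw⟩ := hf
    obtain ⟨k, hk, hk'⟩ := exists_dual_sep hw
    refine ⟨k, ?_, by simpa using hk 0⟩
    rintro rfl
    simp at hk'
  · exfalso
    push Not at hf
    obtain ⟨e, he⟩ := hY
    have htop : Submodule.span ℂ (Set.range ![f]) = ⊤ := by
      rw [eq_top_iff]; intro x _; exact hf x
    have hr : Set.range ![f] = {f} := by simp
    rw [hr] at htop
    have hfin : Module.finrank ℂ Y ≤ 1 := by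
      have := finrank_span_le_card (R := ℂ) ({f} : Set Y)
      rw [htop, finrank_top] at this
      simpa using this
    have hfd : Module.Finite ℂ Y := by
      have : Module.Finite ℂ (⊤ : Submodule ℂ Y) := by
        rw [← htop]; infer_instance
      exact Module.Finite.equiv (Submodule.topEquiv (R := ℂ) (M := Y))
    have := he.fintype_card_le_finrank
    simp at this
    omega

omit [CompleteSpace Y] in
theorem exists_vec_ker_ne (hY : Dim3 Y) (g : Y →L[ℂ] ℂ) : ∃ y : Y, y ≠ 0 ∧ g y = 0 := by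
  obtain ⟨e, he⟩ := hY
  by_cases h0 : g (e 0) = 0
  · exact ⟨e 0, he.ne_zero 0, h0⟩
  · refine ⟨g (e 0) • e 1 - g (e 1) • e 0, ?_, by simp [mul_comm]⟩
    intro h
    have h2 := Fintype.linearIndependent_iff.1 he ![- g (e 1), g (e 0), 0] (by
      simp only [Fin.sum_univ_three, Matrix.cons_val_zero, Matrix.cons_val_one, Matrix.cons_val,
        zero_smul, add_zero, neg_smul]
      rw [neg_add_eq_sub]; exact h) 1
    simp at h2
    exact h0 h2

/-- CD11B: extension and Wigner's theorem. -/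
theorem cd_extend {V W : Type*} [AddCommGroup V] [Module ℂ V] [AddCommGroup W] [Module ℂ W]
    (hσ : σ = 1 ∨ σ = -1) (hV : Dim3 V) (hY : Dim3 Y) {B : V →ₗ[ℂ] W →ₗ[ℂ] ℂ} (hB : GoodPair B)
    {Φ : V → W → (Y →L[ℂ] Y)} {π : V → Y} {κ : W → (Y →L[ℂ] ℂ)}
    (hπ : ∀ v, v ≠ 0 → π v ≠ 0) (hκ : ∀ w, w ≠ 0 → κ w ≠ 0)
    (hflag : ∀ v w, v ≠ 0 → w ≠ 0 → B v w = 0 → κ w (π v) = 0 ∧
        ∃ c γ : ℂ, c ≠ 0 ∧ (σ = 1 → γ = 0) ∧ Φ v w = c • rk (π v) (κ w) + γ • (1 : Y →L[ℂ] Y))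
    (htest : ∀ v w v' w', B v' w' = 0 →
      sr (bra σ (Φ v w) (Φ v' w')) = ‖B v w'‖ * ‖B v' w‖)
    (hsurj : ∀ (u : Y) (k : Y →L[ℂ] ℂ), u ≠ 0 → k ≠ 0 → k u = 0 → ∃ v w, v ≠ 0 ∧ w ≠ 0 ∧
      B v w = 0 ∧ (∃ c : ℂ, u = c • π v) ∧ (∃ c : ℂ, k = c • κ w)) :
    ∃ A : V → Y, LinOrConj A ∧ Function.Bijective A ∧
      (∀ w, ∃ k : Y →L[ℂ] ℂ, (∀ v, ‖k (A v)‖ = ‖B v w‖) ∧
        ∀ v, ∃ θ γ : ℂ, ‖θ‖ = 1 ∧ Φ v w = θ • rk (A v) k + γ • (1 : Y →L[ℂ] Y)) ∧
      (∀ k : Y →L[ℂ] ℂ, ∃ w, ∀ v, ‖k (A v)‖ = ‖B v w‖) := by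
  classical
  obtain ⟨hort, hform⟩ := cd_ext1 hσ hV hY hB hπ hκ hflag htest hsurj
  -- a nonzero `w0`
  obtain ⟨w0, hw0⟩ : ∃ w0 : W, w0 ≠ 0 := by
    obtain ⟨e, he⟩ := hV
    have hli : LinearIndependent ℂ ![e 0] := by
      rw [linearIndependent_unique_iff]; simpa using he.ne_zero 0
    obtain ⟨w, hw⟩ := hB.left 1 ![e 0] hli ![1]
    refine ⟨w, ?_⟩
    rintro rfl
    have := hw 0
    simp at this
  choose! c0 γ0 hc0 hΦ0 using fun v hv => hform v w0 hv hw0
  -- the normalised map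
  obtain ⟨π', hπ'0, hπ'⟩ : ∃ π' : V → Y, π' 0 = 0 ∧ ∀ v, v ≠ 0 → π' v = c0 v • π v :=
    ⟨fun v => if v = 0 then 0 else c0 v • π v, by simp, fun v hv => by simp [hv]⟩
  have hπ'ne : ∀ v, v ≠ 0 → π' v ≠ 0 := by
    intro v hv
    rw [hπ' v hv]
    exact smul_ne_zero (hc0 v hv) (hπ v hv)
  -- claim for functionals which are not parallel to `κ w0`
  have claimQ : ∀ g : Y →L[ℂ] ℂ, g ≠ 0 → (∃ u, g u = 0 ∧ κ w0 u ≠ 0) →
      ∃ w, ∀ v, ‖g (π' v)‖ = ‖B v w‖ := by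
    rintro g hg ⟨u, hgu, hu⟩
    have hu0 : u ≠ 0 := by rintro rfl; simp at hu
    obtain ⟨v', w', hv', hw', hB', ⟨c1, hc1⟩, ⟨c2, hc2⟩⟩ := hsurj u g hu0 hg hgu
    obtain ⟨hk0, c', γ', hc', hγ', hΦ'⟩ := hflag v' w' hv' hw' hB'
    have hne : κ w0 (π v') ≠ 0 := by
      intro h
      apply hu
      rw [hc1, map_smul, h, smul_zero]
    refine ⟨(c2 * B v' w0 / (c' * κ w0 (π v'))) • w', fun v => ?_⟩
    by_cases hv : v = 0
    · simp [hv, hπ'0]
    · have h3 := sr_test3 hσ (hΦ0 v hv) hΦ' hk0 hγ'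
      rw [htest v w0 v' w' hB'] at h3
      rw [hπ' v hv, hc2]
      simp only [map_smul, _root_.smul_apply, smul_eq_mul, norm_mul, norm_div]
      have e1 : ‖c'‖ ≠ 0 := norm_ne_zero_iff.2 hc'
      have e2 : ‖κ w0 (π v')‖ ≠ 0 := norm_ne_zero_iff.2 hne
      field_simp
      linear_combination (-‖c2‖) * h3
  -- Wigner
  have hwig : ∀ (g : Y →L[ℂ] ℂ) (v w : V), ∃ a b : ℂ, ‖g (π' v)‖ = ‖a‖ ∧ ‖g (π' w)‖ = ‖b‖ ∧
      ∀ s : ℂ, ‖g (π' (v + s • w))‖ = ‖a + s * b‖ := by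
    intro g v w
    by_cases hg : g = 0
    · exact ⟨0, 0, by simp [hg], by simp [hg], fun s => by simp [hg]⟩
    by_cases hpar : ∃ u, g u = 0 ∧ κ w0 u ≠ 0
    · obtain ⟨w', hw'⟩ := claimQ g hg hpar
      refine ⟨B v w', B w w', hw' v, hw' w, fun s => ?_⟩
      rw [hw']; simp
    · push Not at hpar
      obtain ⟨y1, hy1, hgy1⟩ := exists_vec_ker_ne hY g
      obtain ⟨e, he⟩ : ∃ e : Y →L[ℂ] ℂ, e y1 = 1 := by
        have hli : LinearIndependent ℂ ![y1] := by
          rw [linearIndependent_unique_iff]; simpa using hy1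
        obtain ⟨e, he⟩ := exists_dual_fin hli ![1]
        exact ⟨e, by simpa using he 0⟩
      obtain ⟨y0, hy0⟩ : ∃ y0, g y0 = 1 := by
        obtain ⟨z, hz⟩ : ∃ z, g z ≠ 0 := by
          by_contra h
          push Not at h
          exact hg (ContinuousLinearMap.ext h)
        exact ⟨(g z)⁻¹ • z, by simp [hz]⟩
      have hk0 : κ w0 y0 ≠ 0 := by
        intro h
        apply hκ w0 hw0
        ext z
        have h1 : g (z - g z • y0) = 0 := by simp [hy0]
        have h2 := hpar _ h1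
        rw [map_sub, map_smul, h, smul_zero, sub_zero] at h2
        simpa using h2
      have hn : ∀ n : ℕ, ((n : ℂ) + 1) ≠ 0 := fun n => by exact_mod_cast Nat.succ_ne_zero n
      set G : ℕ → (Y →L[ℂ] ℂ) := fun n => g + (1 / ((n : ℂ) + 1)) • e with hG
      have hGn : ∀ n, ∃ w', ∀ v, ‖G n (π' v)‖ = ‖B v w'‖ := by
        intro n
        have hval : G n (y0 + (-((n : ℂ) + 1) - e y0) • y1) = 0 := by
          simp only [hG, _root_.add_apply, _root_.smul_apply, map_add,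
            map_smul, smul_eq_mul, hy0, hgy1, he]
          have := hn n
          field_simp
          ring
        apply claimQ
        · intro h
          have h1 : G n y1 = 0 := by rw [h]; rfl
          simp only [hG, _root_.add_apply, _root_.smul_apply, hgy1, he,
            smul_eq_mul, mul_one, zero_add, one_div] at h1
          exact inv_ne_zero (hn n) h1
        · refine ⟨_, hval, ?_⟩
          rw [map_add, map_smul, hpar y1 hgy1, smul_zero, add_zero]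
          exact hk0
      have hlim : ∀ y : Y, Filter.Tendsto (fun n => G n y) Filter.atTop (nhds (g y)) := by
        intro y
        have h1 : Filter.Tendsto (fun n : ℕ => (1 / ((n : ℂ) + 1))) Filter.atTop (nhds 0) := by
          exact_mod_cast tendsto_one_div_add_atTop_nhds_zero_nat (𝕜 := ℂ)
        have h2 := (h1.mul_const (e y)).const_add (g y)
        simpa [hG] using h2
      apply phase_closed (F := fun s n => G n (π' (v + s • w))) (U := fun n => G n (π' v))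
        (W := fun n => G n (π' w))
      · intro n
        obtain ⟨w', hw'⟩ := hGn n
        refine ⟨B v w', B w w', hw' v, hw' w, fun s => ?_⟩
        rw [hw']; simp
      · intro s; exact hlim _
      · exact hlim _
      · exact hlim _
  have hV2 : ∃ v w : V, LinearIndependent ℂ ![v, w] := by
    obtain ⟨e, he⟩ := hV
    refine ⟨e 0, e 1, ?_⟩
    have h := he.comp ![0, 1] (by
      intro i j hij
      fin_cases i <;> fin_cases j <;> simp_all)
    convert h using 1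
    ext i; fin_cases i <;> rfl
  obtain ⟨A, hA, hAπ⟩ : ∃ A : V → Y, LinOrConj A ∧ ∀ v, ∃ θ : ℂ, ‖θ‖ = 1 ∧ π' v = θ • A v := by
    rcases wigner_pairing π' hV2 hπ'ne hwig with ⟨A, h⟩ | ⟨A, h⟩
    · exact ⟨A, Or.inl ⟨A, fun _ => rfl⟩, h⟩
    · exact ⟨A, Or.inr ⟨A, fun _ => rfl⟩, h⟩
  obtain ⟨τ, hτn, hττ, hAsub, hAsmul, hA0⟩ := linOrConj_spec hA
  -- `π v` and `A v` are parallel
  have hπA : ∀ v, v ≠ 0 → ∃ d : ℂ, d ≠ 0 ∧ π v = d • A v := by
    intro v hv
    obtain ⟨θ, hθ, h⟩ := hAπ v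
    rw [hπ' v hv] at h
    refine ⟨(c0 v)⁻¹ * θ, mul_ne_zero (inv_ne_zero (hc0 v hv)) (by rintro rfl; simp at hθ), ?_⟩
    rw [mul_smul, ← h, smul_smul, inv_mul_cancel₀ (hc0 v hv), one_smul]
  have hAne : ∀ v, v ≠ 0 → A v ≠ 0 := by
    intro v hv h
    obtain ⟨d, hd, h1⟩ := hπA v hv
    exact hπ v hv (by rw [h1, h, smul_zero])
  have hinj : Function.Injective A := by
    intro v w h
    by_contra hne
    exact hAne (v - w) (sub_ne_zero.2 hne) (by rw [hAsub, h, sub_self])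
  have hsur : Function.Surjective A := by
    intro u
    by_cases hu : u = 0
    · exact ⟨0, by rw [hA0, hu]⟩
    · obtain ⟨k, hk, hku⟩ := exists_functional_ne (f := u) hY
      obtain ⟨v, w, hv, hw, hvw, ⟨c, hc⟩, -⟩ := hsurj u k hu hk hku
      obtain ⟨d, hd, h1⟩ := hπA v hv
      refine ⟨τ (c * d) • v, ?_⟩
      rw [hAsmul, hττ, hc, h1, smul_smul]
  -- `κ w` in terms of `B`
  have hr : ∀ w, w ≠ 0 → ∃ r : ℝ, 0 < r ∧ ∀ v, ‖κ w (A v)‖ = r * ‖B v w‖ := by
    intro w hw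
    have hiff : ∀ v, B v w = 0 → κ w (A v) = 0 := by
      intro v h
      by_cases hv : v = 0
      · simp [hv, hA0]
      · have h1 := (hort v w hv hw).1 h
        obtain ⟨d, hd, h2⟩ := hπA v hv
        rw [h2, map_smul, smul_eq_mul] at h1
        exact (mul_eq_zero.1 h1).resolve_left hd
    have hli : LinearIndependent ℂ ![w] := by
      rw [linearIndependent_unique_iff]; simpa using hw
    obtain ⟨v1, hv1⟩ := hB.right 1 ![w] hli ![1]
    have hv1' : B v1 w = 1 := by simpa using hv1 0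
    have hv10 : v1 ≠ 0 := by rintro rfl; simp at hv1'
    have hv1ne : κ w (A v1) ≠ 0 := by
      intro h
      obtain ⟨d, hd, h2⟩ := hπA v1 hv10
      have : κ w (π v1) = 0 := by rw [h2, map_smul, h, smul_zero]
      have := (hort v1 w hv10 hw).2 this
      rw [hv1'] at this
      exact one_ne_zero this
    refine ⟨‖κ w (A v1)‖, norm_pos_iff.2 hv1ne, fun v => ?_⟩
    have h1 : B (v - B v w • v1) w = 0 := by simp [hv1']
    have h2 := hiff _ h1
    rw [hAsub, hAsmul, map_sub, map_smul, sub_eq_zero] at h2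
    rw [h2, smul_eq_mul, norm_mul, hτn, mul_comm]
  choose! r hr0 hr using hr
  -- the images in terms of `A`
  have hΦA : ∀ v w, v ≠ 0 → w ≠ 0 → ∃ e γ : ℂ, Φ v w = e • rk (A v) (κ w) + γ • (1 : Y →L[ℂ] Y) := by
    intro v w hv hw
    obtain ⟨c, γ, hc, h⟩ := hform v w hv hw
    obtain ⟨d, hd, h2⟩ := hπA v hv
    refine ⟨c * d, γ, ?_⟩
    rw [h, h2]
    congr 1
    ext z
    simp [smul_smul, mul_comm, mul_assoc]
  have hflagA : ∀ v w, v ≠ 0 → w ≠ 0 → B v w = 0 → κ w (A v) = 0 ∧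
        ∃ e γ : ℂ, (σ = 1 → γ = 0) ∧ Φ v w = e • rk (A v) (κ w) + γ • (1 : Y →L[ℂ] Y) := by
    intro v w hv hw hvw
    obtain ⟨hk0, c, γ, hc, hγ, h⟩ := hflag v w hv hw hvw
    obtain ⟨d, hd, h2⟩ := hπA v hv
    refine ⟨?_, c * d, γ, hγ, ?_⟩
    · rw [h2, map_smul, smul_eq_mul] at hk0
      exact (mul_eq_zero.1 hk0).resolve_left hd
    · rw [h, h2]
      congr 1
      ext z
      simp [smul_smul, mul_comm, mul_assoc]
  -- products of the normalised moduli
  have hprod : ∀ v w v' w' (e γ e' γ' : ℂ), v ≠ 0 → w ≠ 0 → v' ≠ 0 → w' ≠ 0 → B v' w' = 0 →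
      Φ v w = e • rk (A v) (κ w) + γ • (1 : Y →L[ℂ] Y) → (σ = 1 → γ' = 0) →
      Φ v' w' = e' • rk (A v') (κ w') + γ' • (1 : Y →L[ℂ] Y) → B v w' ≠ 0 → B v' w ≠ 0 →
      (‖e‖ * r w) * (‖e'‖ * r w') = 1 := by
    intro v w v' w' e γ e' γ' hv hw hv' hw' hB' h1 hγ' h2 n1 n2
    have h3 := sr_test3 hσ h1 h2 (hflagA v' w' hv' hw' hB').1 hγ'
    rw [htest v w v' w' hB', hr w hw, hr w' hw'] at h3
    have m1 : ‖B v w'‖ ≠ 0 := norm_ne_zero_iff.2 n1
    have m2 : ‖B v' w‖ ≠ 0 := norm_ne_zero_iff.2 n2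
    have h4 : (‖B v w'‖ * ‖B v' w‖) * ((‖e‖ * r w) * (‖e'‖ * r w')) =
      (‖B v w'‖ * ‖B v' w‖) * 1 := by linear_combination -h3
    exact mul_left_cancel₀ (mul_ne_zero m1 m2) h4
  have hunit : ∀ v w (e γ : ℂ), v ≠ 0 → w ≠ 0 →
      Φ v w = e • rk (A v) (κ w) + γ • (1 : Y →L[ℂ] Y) → ‖e‖ * r w = 1 := by
    intro v w e γ hv hw h
    obtain ⟨v1, w1, hv1, hw1, hf1, a1, -, b1, -⟩ := exists_gen_flag hV hB hv hv hw hw
    obtain ⟨-, e1, γ1, hγ1, h1⟩ := hflagA v1 w1 hv1 hw1 hf1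
    obtain ⟨v2, w2, hv2, hw2, hf2, a2, a2', b2, b2'⟩ := exists_gen_flag hV hB hv hv1 hw hw1
    obtain ⟨-, e2, γ2, hγ2, h2⟩ := hflagA v2 w2 hv2 hw2 hf2
    have p1 := hprod v w v1 w1 e γ e1 γ1 hv hw hv1 hw1 hf1 h hγ1 h1 a1 b1
    have p2 := hprod v w v2 w2 e γ e2 γ2 hv hw hv2 hw2 hf2 h hγ2 h2 a2 b2
    have p3 := hprod v1 w1 v2 w2 e1 γ1 e2 γ2 hv1 hw1 hv2 hw2 hf2 h1 hγ2 h2 a2' b2'
    set E := ‖e‖ * r w
    set E1 := ‖e1‖ * r w1
    set E2 := ‖e2‖ * r w2
    have hE2 : E2 ≠ 0 := by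
      intro h0; rw [h0] at p2; simp at p2
    have hEE : E = E1 := mul_right_cancel₀ hE2 (p2.trans p3.symm)
    have hE0 : 0 ≤ E := mul_nonneg (norm_nonneg _) (hr0 w hw).le
    rw [← hEE] at p1
    nlinarith
  refine ⟨A, hA, ⟨hinj, hsur⟩, ?_, ?_⟩
  · intro w
    -- tests vanish for all flags: the operator is scalar
    have hscal : ∀ T : Y →L[ℂ] Y, (∀ v' w', v' ≠ 0 → w' ≠ 0 → B v' w' = 0 →
        sr (bra σ T (Φ v' w')) = 0) → ∃ γ : ℂ, T = γ • (1 : Y →L[ℂ] Y) := by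
      intro T hT
      apply scalar_of_eigen_all
      intro u
      by_contra hcon
      push Not at hcon
      have hu : u ≠ 0 := by
        rintro rfl
        exact hcon 0 (by simp)
      have hnot : T u ∉ Submodule.span ℂ (Set.range ![u]) := by
        intro h
        have hr' : Set.range ![u] = {u} := by simp
        rw [hr', Submodule.mem_span_singleton] at h
        obtain ⟨a, ha⟩ := h
        exact hcon a ha.symm
      obtain ⟨k, hk, hk1⟩ := exists_dual_sep hnot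
      have hku : k u = 0 := by simpa using hk 0
      have hkne : k ≠ 0 := by rintro rfl; simp at hk1
      obtain ⟨v', w', hv', hw', hB', ⟨c1, hc1⟩, ⟨c2, hc2⟩⟩ := hsurj u k hu hkne hku
      obtain ⟨hk0, c', γ', hc', hγ', hΦ'⟩ := hflag v' w' hv' hw' hB'
      have h3 := hT v' w' hv' hw' hB'
      rw [hΦ', sr_bra_flag_smul hσ T hk0 c' γ' hγ'] at h3
      have h4 : κ w' (T (π v')) = 0 := by
        have := (mul_eq_zero.1 h3).resolve_left (norm_ne_zero_iff.2 hc')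
        exact norm_eq_zero.1 this
      rw [hc1, hc2] at hk1
      simp [h4] at hk1
    by_cases hw : w = 0
    · refine ⟨0, fun v => by simp [hw], fun v => ?_⟩
      obtain ⟨γ, hγ⟩ := hscal (Φ v w) (fun v' w' _ _ hB' => by
        rw [htest v w v' w' hB', hw]; simp)
      refine ⟨1, γ, by simp, ?_⟩
      rw [hγ]
      ext z; simp
    · refine ⟨((r w : ℂ)⁻¹) • κ w, fun v => ?_, fun v => ?_⟩
      · have h0 := hr0 w hw
        rw [_root_.smul_apply, norm_smul, hr w hw, norm_inv, Complex.norm_real,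
          Real.norm_of_nonneg h0.le, ← mul_assoc, inv_mul_cancel₀ h0.ne', one_mul]
      · by_cases hv : v = 0
        · obtain ⟨γ, hγ⟩ := hscal (Φ v w) (fun v' w' _ _ hB' => by
            rw [htest v w v' w' hB', hv]; simp)
          refine ⟨1, γ, by simp, ?_⟩
          rw [hγ, hv, hA0]
          ext z; simp
        · obtain ⟨e, γ, h⟩ := hΦA v w hv hw
          have hu := hunit v w e γ hv hw h
          have h0 := hr0 w hw
          refine ⟨e * r w, γ, ?_, ?_⟩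
          · rw [norm_mul, Complex.norm_real, Real.norm_of_nonneg h0.le, hu]
          · rw [h]
            congr 1
            have hrc : (r w : ℂ) ≠ 0 := by exact_mod_cast h0.ne'
            ext z
            simp only [_root_.smul_apply, rk_apply, smul_smul, smul_eq_mul]
            congr 1
            field_simp
  · intro k
    by_cases hk : k = 0
    · exact ⟨0, fun v => by simp [hk]⟩
    · obtain ⟨u, hu, hku⟩ := exists_vec_ker_ne hY k
      obtain ⟨v, w, hv, hw, hvw, -, ⟨c, hc⟩⟩ := hsurj u k hu hk hku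
      refine ⟨(c * (r w : ℂ)) • w, fun v => ?_⟩
      rw [hc, _root_.smul_apply, smul_eq_mul, norm_mul, hr w hw, map_smul, smul_eq_mul,
        norm_mul, norm_mul, Complex.norm_real, Real.norm_of_nonneg (hr0 w hw).le, mul_assoc]

end cd11b

end PR
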